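import Pool.Agent.Y60.DC.StmSp

/-!
# Automorphisms of symplectic groups over finite fields of odd characteristic permute the
transvection groups (job SP-SYL)
-/

set_option autoImplicit false

namespace Pool.Agent.Y659.DSP

open Pool.Agent.Y60.DC

section basic

variable {F V : Type} [Field F] [AddCommGroup V] [Module F V] {B : V →ₗ[F] V →ₗ[F] F}

lemma skew (hB : IsSymp B) (x y : V) : B x y = -B y x := by
  have h := hB.alt (x + y)
  simp only [map_add, LinearMap.add_apply] at h
  rw [hB.alt x, hB.alt y] at h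
  linear_combination h

lemma exists_one (hB : IsSymp B) (v : V) (hv : v ≠ 0) : ∃ z, B v z = 1 := by
  by_contra hcon
  push Not at hcon
  apply hv
  apply hB.nondeg
  intro y
  by_contra hy
  apply hcon ((B v y)⁻¹ • y)
  rw [map_smul, smul_eq_mul, inv_mul_cancel₀ hy]

/-- A vector orthogonal to `v^⊥` is a multiple of `v`. -/
lemma perp_perp (hB : IsSymp B) (v d : V) (hv : v ≠ 0) (h : ∀ w, B v w = 0 → B w d = 0) :
    ∃ a : F, d = a • v := by
  obtain ⟨z, hz⟩ := exists_one hB v hv
  refine ⟨B d z, ?_⟩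
  rw [← sub_eq_zero]
  apply hB.nondeg
  intro x
  have h1 := h (x - B v x • z) (by rw [map_sub, map_smul, hz, smul_eq_mul]; ring)
  rw [map_sub, map_smul, LinearMap.sub_apply, LinearMap.smul_apply, smul_eq_mul] at h1
  rw [map_sub, map_smul, LinearMap.sub_apply, LinearMap.smul_apply, smul_eq_mul]
  have e1 := skew hB x d
  have e2 := skew hB z d
  rw [e1, e2] at h1
  linear_combination -h1

/-- `s` is the map `z ↦ z + B(v,z) w + (B(w,z) + b B(v,z)) v`. -/
def IsY (B : V →ₗ[F] V →ₗ[F] F) (v w : V) (b : F) (s : SpV B) : Prop :=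
  ∀ z, s.1 z = z + B v z • w + (B w z + b * B v z) • v

/-- The linear map. -/
def yl (B : V →ₗ[F] V →ₗ[F] F) (v w : V) (b : F) : V →ₗ[F] V :=
  LinearMap.id + (B v).smulRight w + (B w + b • B v).smulRight v

lemma yl_apply (v w : V) (b : F) (z : V) :
    yl B v w b z = z + B v z • w + (B w z + b * B v z) • v := by
  simp [yl]

lemma yl_comp (hB : IsSymp B) (v w w' : V) (b b' : F) (hw : B v w = 0) (hw' : B v w' = 0)
    (z : V) : yl B v w b (yl B v w' b' z) = yl B v (w + w') (b + b' + B w w') z := by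
  have hwv : B w v = 0 := by rw [skew hB, hw, neg_zero]
  simp only [yl_apply, map_add, map_smul, smul_eq_mul, hw', hB.alt v, hwv, LinearMap.add_apply,
    mul_zero, add_zero]
  module

lemma yl_isom (hB : IsSymp B) (v w : V) (b : F) (hw : B v w = 0) (x y : V) :
    B (yl B v w b x) (yl B v w b y) = B x y := by
  have hwv : B w v = 0 := by rw [skew hB, hw, neg_zero]
  simp only [yl_apply, map_add, map_smul, smul_eq_mul, hw, hwv, hB.alt v, hB.alt w,
    LinearMap.add_apply, LinearMap.smul_apply, mul_zero, add_zero, zero_add]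
  have e1 := skew hB x w
  have e2 := skew hB x v
  rw [e1, e2]
  ring

/-- The isometry `y_{w,b}`. -/
def yy (hB : IsSymp B) (v w : V) (b : F) (hw : B v w = 0) : SpV B :=
  ⟨LinearEquiv.ofLinear (yl B v w b) (yl B v (-w) (-b))
    (by
      apply LinearMap.ext
      intro z
      rw [LinearMap.comp_apply, yl_comp hB v w (-w) b (-b) hw (by rw [map_neg, hw, neg_zero])]
      rw [yl_apply, map_neg, hB.alt w]
      simp)
    (by
      apply LinearMap.ext
      intro z
      rw [LinearMap.comp_apply, yl_comp hB v (-w) w (-b) b (by rw [map_neg, hw, neg_zero]) hw]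
      rw [yl_apply, map_neg, LinearMap.neg_apply, hB.alt w]
      simp),
    fun x y => yl_isom hB v w b hw x y⟩

lemma yy_isY (hB : IsSymp B) (v w : V) (b : F) (hw : B v w = 0) :
    IsY B v w b (yy hB v w b hw) := fun z => yl_apply v w b z

lemma isY_iff (v w : V) (b : F) (s : SpV B) : IsY B v w b s ↔ ∀ z, s.1 z = yl B v w b z := by
  unfold IsY
  simp only [yl_apply]

lemma isY_mul (hB : IsSymp B) (v w w' : V) (b b' : F) (hw : B v w = 0) (hw' : B v w' = 0)
    (s s' : SpV B) (h : IsY B v w b s) (h' : IsY B v w' b' s') :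
    IsY B v (w + w') (b + b' + B w w') (s * s') := by
  rw [isY_iff] at *
  intro z
  have : (s * s').1 z = s.1 (s'.1 z) := rfl
  rw [this, h', h, yl_comp hB v w w' b b' hw hw']

lemma isY_unique (v w : V) (b : F) (s s' : SpV B) (h : IsY B v w b s) (h' : IsY B v w b s') :
    s = s' := by
  apply Subtype.ext
  apply LinearEquiv.ext
  intro z
  rw [h z, h' z]

/-- The subgroup of the `y_{w,b}`. -/
def qq (hB : IsSymp B) (v : V) : Subgroup (SpV B) where
  carrier := {s | ∃ w b, B v w = 0 ∧ IsY B v w b s}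
  one_mem' := ⟨0, 0, by simp, fun z => by simp⟩
  mul_mem' := by
    rintro s s' ⟨w, b, hw, h⟩ ⟨w', b', hw', h'⟩
    exact ⟨w + w', _, by rw [map_add, hw, hw', add_zero], isY_mul hB v w w' b b' hw hw' s s' h h'⟩
  inv_mem' := by
    rintro s ⟨w, b, hw, h⟩
    have hw2 : B v (-w) = 0 := by rw [map_neg, hw, neg_zero]
    refine ⟨-w, -b, hw2, ?_⟩
    have h1 := isY_mul hB v w (-w) b (-b) hw hw2 s _ h (yy_isY hB v (-w) (-b) hw2)
    have h2 : s * yy hB v (-w) (-b) hw2 = 1 := by
      apply isY_unique v (w + -w) (b + -b + B w (-w)) _ _ h1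
      intro z
      rw [map_neg, hB.alt w]
      simp
    rw [inv_eq_of_mul_eq_one_right h2]
    exact yy_isY hB v (-w) (-b) hw2

lemma isY_pow (hB : IsSymp B) (v w : V) (b : F) (hw : B v w = 0) (s : SpV B)
    (h : IsY B v w b s) (n : ℕ) : IsY B v ((n : F) • w) (n * b) (s ^ n) := by
  induction n with
  | zero => intro z; simp
  | succ n ih =>
    rw [pow_succ]
    have h1 := isY_mul hB v ((n : F) • w) w (n * b) b (by rw [map_smul, hw, smul_zero]) hw _ _ ih h
    have e1 : ((n : F) • w + w) = ((n + 1 : ℕ) : F) • w := by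
      push_cast; rw [add_smul, one_smul]
    have e2 : (n : F) * b + b + B ((n : F) • w) w = ((n + 1 : ℕ) : F) * b := by
      rw [map_smul, LinearMap.smul_apply, hB.alt w]
      push_cast; simp; ring
    rw [e1, e2] at h1
    exact h1

lemma qq_isPGroup (hB : IsSymp B) (p : ℕ) [CharP F p] (v : V) : IsPGroup p (qq hB v) := by
  rintro ⟨s, w, b, hw, h⟩
  refine ⟨1, ?_⟩
  apply Subtype.ext
  change s ^ p ^ 1 = 1
  rw [pow_one]
  have h1 := isY_pow hB v w b hw s h p
  rw [CharP.cast_eq_zero F p] at h1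
  apply isY_unique v ((0 : F) • w) (0 * b) _ _ h1
  intro z
  simp

lemma tv_mem (hB : IsSymp B) (v : V) (a : F) (t : SpV B) (h : IsTv B v a t) : t ∈ qq hB v :=
  ⟨0, a, by simp, fun z => by rw [h z]; simp⟩

/-- An isometry which fixes `v` and commutes with all `y_{w,b}` is a transvection. -/
lemma cent (hB : IsSymp B) (h2 : (2 : F) ≠ 0) (v : V) (hv : v ≠ 0) (s : SpV B)
    (hs : s.1 v = v) (hc : ∀ q ∈ qq hB v, s * q = q * s) : ∃ a, IsTv B v a s := by
  obtain ⟨z₀, hz₀⟩ := exists_one hB v hv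
  have hsB : ∀ x y, B (s.1 x) (s.1 y) = B x y := s.2
  have hfix : ∀ w, B v w = 0 → s.1 w = w := by
    intro w hw
    have h1 := hc (yy hB v w 0 hw) ⟨w, 0, hw, yy_isY hB v w 0 hw⟩
    have h3 : s.1 ((yy hB v w 0 hw).1 z₀) = (yy hB v w 0 hw).1 (s.1 z₀) :=
      congrArg (fun g : SpV B => g.1 z₀) h1
    rw [yy_isY hB v w 0 hw z₀, yy_isY hB v w 0 hw (s.1 z₀)] at h3
    have h4 : B v (s.1 z₀) = 1 := by
      have := hsB v z₀
      rw [hs, hz₀] at this
      exact this
    rw [h4, hz₀] at h3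
    simp only [map_add, map_smul, hs, one_smul, zero_mul, add_zero] at h3
    -- s z₀ + s w + B w z₀ v = s z₀ + w + B w (s z₀) v
    set c := B w (s.1 z₀) - B w z₀ with hcdef
    have h5 : s.1 w = w + c • v := by
      rw [hcdef, sub_smul]
      have h6 : s.1 w = (s.1 z₀ + s.1 w + B w z₀ • v) - s.1 z₀ - B w z₀ • v := by abel
      rw [h6, h3]
      abel
    have h7 := hsB w z₀
    rw [h5, map_add, map_smul, LinearMap.add_apply, LinearMap.smul_apply, h4, smul_eq_mul,
      mul_one] at h7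
    have h8 : 2 * c = 0 := by
      rw [hcdef] at h7 ⊢
      linear_combination h7
    have h9 : c = 0 := by
      rcases mul_eq_zero.1 h8 with h | h
      · exact absurd h h2
      · exact h
    rw [h5, h9, zero_smul, add_zero]
  obtain ⟨a, ha⟩ := perp_perp hB v (s.1 z₀ - z₀) hv (fun w hw => by
    rw [map_sub]
    have h1 := hsB w z₀
    rw [hfix w hw] at h1
    rw [h1, sub_self])
  refine ⟨a, fun x => ?_⟩
  have h1 := hfix (x - B v x • z₀) (by rw [map_sub, map_smul, hz₀, smul_eq_mul]; ring)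
  rw [map_sub, map_smul] at h1
  have h2 : s.1 z₀ = z₀ + a • v := by rw [← ha]; abel
  rw [h2] at h1
  have h3 : s.1 x = (s.1 x - B v x • (z₀ + a • v)) + B v x • (z₀ + a • v) := by abel
  rw [h3, h1]
  module

end basic

section fixed

variable {F V : Type} [Field F] [Finite F] [AddCommGroup V] [Module F V] [FiniteDimensional F V]
  {B : V →ₗ[F] V →ₗ[F] F}

lemma fixvec (p : ℕ) [Fact p.Prime] [CharP F p] (v : V) (hv : v ≠ 0) (Q : Subgroup (SpV B))
    (hQ : IsPGroup p Q) : ∃ u : V, u ≠ 0 ∧ ∀ g ∈ Q, g.1 u = u := by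
  have : Finite V := Module.finite_of_finite F
  let act : MulAction Q V :=
    { smul := fun g u => (g : SpV B).1 u
      one_smul := fun u => rfl
      mul_smul := fun g h u => rfl }
  have hp : p ∣ Nat.card V := by
    have h1 : addOrderOf v = p := by
      apply addOrderOf_eq_prime
      · rw [← Nat.cast_smul_eq_nsmul F, CharP.cast_eq_zero, zero_smul]
      · exact hv
    rw [← h1]
    exact addOrderOf_dvd_natCard v
  have hz : (0 : V) ∈ @MulAction.fixedPoints Q V _ act := by
    intro g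
    exact map_zero (g : SpV B).1
  obtain ⟨b, hb, hne⟩ := @IsPGroup.exists_fixed_point_of_prime_dvd_card_of_fixed_point p Q _ hQ _
    V act _ hp 0 hz
  exact ⟨b, hne.symm, fun g hg => hb ⟨g, hg⟩⟩

/-- A `p`-subgroup which contains `qq v` fixes `v`. -/
lemma sylow_fix (hB : IsSymp B) (p : ℕ) [Fact p.Prime] [CharP F p] (v : V) (hv : v ≠ 0)
    (Q : Subgroup (SpV B)) (hQ : IsPGroup p Q) (hle : qq hB v ≤ Q) : ∀ g ∈ Q, g.1 v = v := by
  obtain ⟨u, hu0, hu⟩ := fixvec p v hv Q hQ
  have h1 : B v u = 0 := by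
    have h := hu _ (hle ⟨0, 1, by simp, yy_isY hB v 0 1 (by simp)⟩)
    rw [yy_isY hB v 0 1 (by simp) u] at h
    simp only [smul_zero, add_zero, map_zero, LinearMap.zero_apply, zero_add, one_mul,
      add_eq_left, smul_eq_zero] at h
    rcases h with h | h
    · exact h
    · exact absurd h hv
  obtain ⟨c, hc⟩ := perp_perp hB v u hv (fun w hw => by
    have h := hu _ (hle ⟨w, 0, hw, yy_isY hB v w 0 hw⟩)
    rw [yy_isY hB v w 0 hw u, h1] at h
    simp only [zero_smul, add_zero, mul_zero, add_eq_left, smul_eq_zero] at h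
    rcases h with h | h
    · exact h
    · exact absurd h hv)
  have hc0 : c ≠ 0 := by
    rintro rfl
    exact hu0 (by rw [hc, zero_smul])
  intro g hg
  have h5 := hu g hg
  rw [hc, map_smul] at h5
  exact smul_right_injective _ hc0 h5

end fixed

open scoped Pointwise in
/-- SP-SYL. -/
theorem syl_holds : TaskSSYL := by
  intro F V _ _ _ _ _ B hB h2 G _ π hπ f v hv
  obtain ⟨p, hp⟩ := CharP.exists F
  have hpp : p.Prime := by
    rcases CharP.char_is_prime_or_zero F p with h | h
    · exact h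
    · subst h
      have h0 : CharZero F := CharP.charP_to_charZero F
      have : Infinite F := Infinite.of_injective (Nat.cast : ℕ → F) Nat.cast_injective
      exact (not_finite F).elim
  have : Fact p.Prime := ⟨hpp⟩
  have hp2 : p ≠ 2 := by
    rintro rfl
    apply h2
    exact_mod_cast CharP.cast_eq_zero F 2
  have : Finite V := Module.finite_of_finite F
  have : Finite (V ≃ₗ[F] V) := DFunLike.finite _
  have : Finite (SpV B) := inferInstance
  have : Finite G := Finite.of_surjective π hπ.surj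
  obtain ⟨P, hP⟩ := (qq_isPGroup hB p v).exists_le_sylow
  have hfixv := sylow_fix hB p v hv (P : Subgroup (SpV B)) P.isPGroup' hP
  set Q : Sylow p G := P.mapSurjective hπ.surj with hQdef
  have hQ : ∀ x, x ∈ (Q : Subgroup G) ↔ ∃ s ∈ (P : Subgroup (SpV B)), π s = x := by
    intro x
    rw [hQdef, Sylow.coe_mapSurjective]
    rfl
  obtain ⟨g', hg'⟩ := MulAction.exists_smul_eq G Q (f • Q)
  obtain ⟨g, rfl⟩ := hπ.surj g'
  have hgQ : ∀ b ∈ (Q : Subgroup G), ∃ b' ∈ (Q : Subgroup G), π g * b * (π g)⁻¹ = f b' := by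
    intro b hb
    have h1 : π g * b * (π g)⁻¹ ∈ ((π g • Q : Sylow p G) : Subgroup G) := by
      rw [Sylow.coe_subgroup_smul]
      exact ⟨b, hb, rfl⟩
    rw [hg', Sylow.pointwise_smul_def] at h1
    obtain ⟨b', hb', hbb⟩ := h1
    exact ⟨b', hb', hbb.symm⟩
  have hfQ : ∀ a ∈ (Q : Subgroup G), ∃ b ∈ (Q : Subgroup G), f a = π g * b * (π g)⁻¹ := by
    intro a ha
    have h1 : f a ∈ ((f • Q : Sylow p G) : Subgroup G) := by
      rw [Sylow.pointwise_smul_def]
      exact ⟨a, ha, rfl⟩
    rw [← hg', Sylow.coe_subgroup_smul] at h1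
    obtain ⟨b, hb, hbb⟩ := h1
    exact ⟨b, hb, hbb.symm⟩
  have hginj : Function.Injective g.1 := g.1.injective
  refine ⟨g.1 v, fun h => hv (hginj (by rw [h, map_zero])), ?_⟩
  intro a t ht
  -- `t` commutes with `P`
  have htP : t ∈ (P : Subgroup (SpV B)) := hP (tv_mem hB v a t ht)
  have htc : ∀ s ∈ (P : Subgroup (SpV B)), t * s = s * t := by
    intro s hs
    apply Subtype.ext
    apply LinearEquiv.ext
    intro x
    change t.1 (s.1 x) = s.1 (t.1 x)
    rw [ht, ht, map_add, map_smul, hfixv s hs]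
    have h1 : B v (s.1 x) = B v x := by
      have := s.2 v x
      rw [hfixv s hs] at this
      exact this
    rw [h1]
  obtain ⟨b, hbQ, hb⟩ := hfQ (π t) ((hQ _).2 ⟨t, htP, rfl⟩)
  -- `b` commutes with `Q`
  have hbc : ∀ c ∈ (Q : Subgroup G), b * c = c * b := by
    intro c hc
    obtain ⟨c', hc', hcc⟩ := hgQ c hc
    obtain ⟨s, hs, rfl⟩ := (hQ _).1 hc'
    have h1 : f (π t) * f (π s) = f (π s) * f (π t) := by
      rw [← map_mul, ← map_mul, htc s hs, map_mul, map_mul]
    rw [hb, ← hcc] at h1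
    have h3 : π g * (b * c) * (π g)⁻¹ = π g * (c * b) * (π g)⁻¹ := by
      calc π g * (b * c) * (π g)⁻¹ = π g * b * (π g)⁻¹ * (π g * c * (π g)⁻¹) := by group
        _ = π g * c * (π g)⁻¹ * (π g * b * (π g)⁻¹) := h1
        _ = π g * (c * b) * (π g)⁻¹ := by group
    exact mul_left_cancel (mul_right_cancel h3)
  obtain ⟨s, hsP, rfl⟩ := (hQ _).1 hbQ
  -- `s` commutes with the elements of `qq v`
  have hsc : ∀ q ∈ qq hB v, s * q = q * s := by
    intro q hq
    have hqP := hP hq
    have h1 := hbc (π q) ((hQ _).2 ⟨q, hqP, rfl⟩)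
    set c := s * q * (q * s)⁻¹ with hcdef
    have hcP : c ∈ (P : Subgroup (SpV B)) :=
      mul_mem (mul_mem hsP hqP) (inv_mem (mul_mem hqP hsP))
    have h3 : π c = 1 := by
      rw [hcdef, map_mul, map_mul, map_inv, map_mul, h1, mul_inv_cancel]
    have h4 : c ^ 2 = 1 := by
      apply Subtype.ext
      apply LinearEquiv.ext
      intro x
      have e : (c ^ 2).1 x = c.1 (c.1 x) := by rw [pow_two]; rfl
      rw [e]
      change c.1 (c.1 x) = x
      rcases hπ.ker c h3 with h | h
      · rw [h, h]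
      · rw [h, h, neg_neg]
    obtain ⟨k, hk⟩ := P.isPGroup' ⟨c, hcP⟩
    have hk' : c ^ p ^ k = 1 := congrArg Subtype.val hk
    have h5 : orderOf c ∣ 2 := orderOf_dvd_of_pow_eq_one h4
    have h6 : orderOf c ∣ p ^ k := orderOf_dvd_of_pow_eq_one hk'
    have h7 : Nat.Coprime 2 (p ^ k) :=
      Nat.Coprime.pow_right k ((Nat.coprime_primes Nat.prime_two hpp).2 (Ne.symm hp2))
    have h8 : orderOf c = 1 := Nat.eq_one_of_dvd_coprimes h7 h5 h6
    have h9 : c = 1 := orderOf_eq_one_iff.1 h8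
    rw [hcdef, mul_inv_eq_one] at h9
    exact h9
  obtain ⟨a', ha'⟩ := cent hB h2 v hv s (hfixv s hsP) hsc
  refine ⟨a', g * s * g⁻¹, ?_, ?_⟩
  · intro x
    have e : (g * s * g⁻¹).1 x = g.1 (s.1 ((g⁻¹).1 x)) := rfl
    have e2 : g.1 ((g⁻¹).1 x) = x := g.1.apply_symm_apply x
    have e3 : B v ((g⁻¹).1 x) = B (g.1 v) x := by
      have := g.2 v ((g⁻¹).1 x)
      rw [e2] at this
      exact this.symm
    rw [e, ha', map_add, map_smul, e2, e3]
  · rw [hb, map_mul, map_mul, map_inv]

end Pool.Agent.Y659.DSP
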